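import Pool.Agent.X322.KP

/-!
# Compatible pairs of operators for a singular quasi-linear map on `ℓ²` need not differ by a
compact operator
-/

set_option autoImplicit false

namespace Pool.Agent.Results.MP_d3af15_an.NonCompactDifference

open Pool.Agent.X322.KP

/-- The real Hilbert space `ℓ²`. -/
def H : Type := lp (fun _ : ℕ => ℝ) 2

noncomputable instance : NormedAddCommGroup H := lp.normedAddCommGroup

noncomputable instance : NormedSpace ℝ H := lp.instNormedSpace

/-- Quasi-linear maps `ℓ² → ℓ²`. -/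
def IsQuasiLinear (Ω : H → H) : Prop :=
  (∀ (c : ℝ) (x : H), Ω (c • x) = c • Ω x) ∧
    ∃ Q : ℝ, ∀ x y : H, ‖Ω (x + y) - Ω x - Ω y‖ ≤ Q * (‖x‖ + ‖y‖)

/-- `Φ` is trivial on the subspace `W`: it is at bounded distance from a linear map. -/
def TrivialOn (Φ : H → H) (W : Submodule ℝ H) : Prop :=
  ∃ (L : W →ₗ[ℝ] H) (C : ℝ), ∀ x : W, ‖Φ x - L x‖ ≤ C * ‖x‖

/-- `Ω` is singular: it is trivial on no infinite-dimensional closed subspace. -/
def IsSingular (Ω : H → H) : Prop :=
  ∀ W : Submodule ℝ H, IsClosed (W : Set H) → ¬ FiniteDimensional ℝ W → ¬ TrivialOn Ω W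

/-- `(T, U)` is compatible with `Ω`: the map `Ω U - T Ω` is trivial on `ℓ²`. -/
def Compatible (Ω : H → H) (T U : H →L[ℝ] H) : Prop :=
  TrivialOn (fun x => Ω (U x) - T (Ω x)) ⊤

section aux

lemma aux : ∃ (Ω : E → E) (T U : E →L[ℝ] E),
    ((∀ (c : ℝ) (x : E), Ω (c • x) = c • Ω x) ∧
      ∃ Q : ℝ, ∀ x y : E, ‖Ω (x + y) - Ω x - Ω y‖ ≤ Q * (‖x‖ + ‖y‖)) ∧
    (∀ W : Submodule ℝ E, IsClosed (W : Set E) → ¬ FiniteDimensional ℝ W →
      ¬ ∃ (L : W →ₗ[ℝ] E) (C : ℝ), ∀ x : W, ‖Ω x - L x‖ ≤ C * ‖x‖) ∧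
    (∃ (L : (⊤ : Submodule ℝ E) →ₗ[ℝ] E) (C : ℝ), ∀ x : (⊤ : Submodule ℝ E),
      ‖(Ω (U x) - T (Ω x)) - L x‖ ≤ C * ‖x‖) ∧
    ¬ IsCompactOperator (T - U : E →L[ℝ] E) := by
  obtain ⟨L, hL⟩ := exists_lift
  choose K hK using hL
  obtain ⟨P, hP, hPn⟩ := exists_P
  obtain ⟨V, hV, hVn⟩ := exists_V
  have hVV : ∀ x, V (V x) = x := by
    intro x
    ext n; rw [hV, hV, ← mul_assoc, sg_sq, one_mul]
  refine ⟨fun x => V (K x), -P, P, ⟨?_, 5, ?_⟩, ?_, ?_, not_compact P hP⟩
  · intro c x
    have : K (c • x) = c • K x := by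
      ext n
      have e : (c • K x : E) n = c * K x n := rfl
      have e2 : L (c • x) n = c * L x n := by rw [map_smul]; rfl
      rw [e, hK, hK, F_smul, e2]; ring
    show V (K (c • x)) = c • V (K x)
    rw [this, map_smul]
  · intro x y
    obtain ⟨d, hd, hdn⟩ := F_quasi x y
    have e : K (x + y) - K x - K y = d := by
      ext n
      have e1 : (K (x + y) - K x - K y : E) n = K (x + y) n - K x n - K y n := rfl
      have e2 : L (x + y) n = L x n + L y n := by rw [map_add]; rfl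
      rw [e1, hK, hK, hK, hd, e2]; ring
    show ‖V (K (x + y)) - V (K x) - V (K y)‖ ≤ _
    rw [← map_sub, ← map_sub, hVn, e]
    exact hdn
  · rintro W - hW ⟨M, C, hM⟩
    refine singular W hW (coeL ∘ₗ V.toLinearMap ∘ₗ M + L ∘ₗ W.subtype)
      (fun x => K x - V (M x)) C ?_ ?_
    · intro x n
      have e1 : (K (x : E) - V (M x) : E) n = K (x : E) n - V (M x) n := rfl
      have e2 : (coeL ∘ₗ V.toLinearMap ∘ₗ M + L ∘ₗ W.subtype) x n = V (M x) n + L (x : E) n := rfl
      rw [e1, e2, hK]; ring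
    · intro x
      have h := hM x
      have e : V (K (x : E) - V (M x)) = V (K (x : E)) - M x := by
        rw [map_sub, hVV]
      rw [← hVn, e]
      exact h
  · have hc : ∀ (x : E) (n : ℕ), (V (K (P x)) - (-P) (V (K x)) : E) n
        = sg n * (L x (sw n) - L (P x) n) := by
      intro x n
      have e1 : (V (K (P x)) - (-P) (V (K x)) : E) n = V (K (P x)) n + P (V (K x)) n := by
        show V (K (P x)) n - -(P (V (K x)) n) = _
        ring
      rw [e1, hP, hV, hV, hK, hK, F_P P hP hPn, sg_sw]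
      ring
    refine ⟨{ toFun := fun x => V (K (P x)) - (-P) (V (K x))
              map_add' := ?_
              map_smul' := ?_ }, 0, fun x => ?_⟩
    · intro x y
      ext n
      have e : (V (K (P (x : E))) - (-P) (V (K (x : E))) + (V (K (P (y : E))) -
          (-P) (V (K (y : E)))) : E) n = (V (K (P (x : E))) - (-P) (V (K (x : E))) : E) n +
          (V (K (P (y : E))) - (-P) (V (K (y : E))) : E) n := rfl
      rw [e, hc, hc, hc]
      have e2 : ((x + y : (⊤ : Submodule ℝ E)) : E) = (x : E) + (y : E) := rfl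
      rw [e2, map_add, map_add, map_add]
      show sg n * ((L x (sw n) + L y (sw n)) - (L (P x) n + L (P y) n)) = _
      ring
    · intro c x
      ext n
      have e : ((RingHom.id ℝ) c • (V (K (P (x : E))) - (-P) (V (K (x : E)))) : E) n =
        c * (V (K (P (x : E))) - (-P) (V (K (x : E))) : E) n := rfl
      rw [e, hc, hc]
      have e2 : ((c • x : (⊤ : Submodule ℝ E)) : E) = c • (x : E) := rfl
      rw [e2, map_smul, map_smul, map_smul]
      show sg n * (c * L x (sw n) - c * L (P x) n) = _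
      ring
    · show ‖(V (K (P (x : E))) - (-P) (V (K (x : E)))) - (V (K (P (x : E))) -
        (-P) (V (K (x : E))))‖ ≤ _
      rw [sub_self, norm_zero, zero_mul]


end aux

/-- There are a singular quasi-linear map `Ω` on `ℓ²` and bounded operators `T`, `U` on `ℓ²` such
that the pair `(T, U)` is compatible with `Ω` and `T - U` is not compact. -/
theorem result : ∃ (Ω : H → H) (T U : H →L[ℝ] H), IsQuasiLinear Ω ∧ IsSingular Ω ∧
    Compatible Ω T U ∧ ¬ IsCompactOperator (T - U : H →L[ℝ] H) :=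
  aux

end Pool.Agent.Results.MP_d3af15_an.NonCompactDifference
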